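import Pool.Agent.W200.MR.Stm

/-!
# Piece t_APM of the disproof of Q1 of MP_c45d52_nt
-/

open Finset Filter Topology MeasureTheory

namespace Pool.Agent.W923.MR

open Pool.Agent.W200.MR

theorem t_APM : S_APM := by
  intro s T F hT hF hS a b ha
  have hmono : StrictMono T := strictMono_nat_of_lt_succ hT
  rw [Metric.tendsto_atTop]
  intro ε hε
  have h1 : Tendsto (fun k : ℕ => 3 / ((k : ℝ) + 1) + (1 / 2 : ℝ) ^ k) atTop (𝓝 0) := by
    have h2 : Tendsto (fun k : ℕ => 3 / ((k : ℝ) + 1)) atTop (𝓝 0) := by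
      have := (tendsto_one_div_add_atTop_nhds_zero_nat (𝕜 := ℝ)).const_mul 3
      simpa [div_eq_mul_inv] using this
    have h3 := tendsto_pow_atTop_nhds_zero_of_lt_one (r := (1 / 2 : ℝ)) (by norm_num) (by norm_num)
    simpa using h2.add h3
  obtain ⟨K0, hK0⟩ := eventually_atTop.1 ((tendsto_order.1 h1).2 ε hε)
  set K := max K0 a with hK
  refine ⟨max (T K) 1, fun N hN => ?_⟩
  have hN1 : T K ≤ N := le_trans (le_max_left _ _) hN
  have hN2 : 1 ≤ N := le_trans (le_max_right _ _) hN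
  obtain ⟨k, hkK, hk1, hk2⟩ : ∃ k, K ≤ k ∧ T k ≤ N ∧ N < T (k + 1) := by
    classical
    have hfin : ∃ m, N < T m := ⟨N + 1, by
      have := hmono.id_le (N + 1)
      exact lt_of_lt_of_le (Nat.lt_succ_self N) this⟩
    have hm : N < T (Nat.find hfin) := Nat.find_spec hfin
    have hmK : K < Nat.find hfin := by
      by_contra h
      have h4 := hmono.monotone (not_lt.1 h)
      omega
    refine ⟨Nat.find hfin - 1, by omega, ?_, ?_⟩
    · have := Nat.find_min hfin (m := Nat.find hfin - 1) (by omega)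
      omega
    · have h5 : Nat.find hfin - 1 + 1 = Nat.find hfin := by omega
      rw [h5]
      exact hm
  have ha1 : a ≤ k + 1 := by
    have : a ≤ K := le_max_right _ _
    omega
  have hSA := hS k N hk1 a b ha ha1
  have hNr : (0 : ℝ) < N := by exact_mod_cast hN2
  have hdiff : ‖(∑ n ∈ AP a b N, F n) - SA (s (k + 1)) a b N‖ ≤ N * (1 / 2 : ℝ) ^ k := by
    unfold SA
    rw [← Finset.sum_sub_distrib]
    refine (norm_sum_le _ _).trans ?_
    have h6 : ∀ n ∈ AP a b N, ‖F n - pw (s (k + 1)) n‖ ≤ (1 / 2 : ℝ) ^ k := by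
      intro n hn
      unfold AP at hn
      rw [Finset.mem_filter, Finset.mem_Icc] at hn
      have := hF (k + 1) n hn.1.1 (lt_of_le_of_lt hn.1.2 hk2)
      have h7 : 2 * (1 / 2 : ℝ) ^ (k + 1) = (1 / 2 : ℝ) ^ k := by rw [pow_succ]; ring
      rwa [h7] at this
    refine (Finset.sum_le_sum h6).trans ?_
    rw [Finset.sum_const, nsmul_eq_mul]
    refine mul_le_mul_of_nonneg_right ?_ (by positivity)
    have : (AP a b N).card ≤ N := by
      unfold AP
      refine (Finset.card_filter_le _ _).trans ?_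
      simp
    exact_mod_cast this
  have hsum : ‖∑ n ∈ AP a b N, F n‖ ≤ (3 / ((k : ℝ) + 1) + (1 / 2 : ℝ) ^ k) * N := by
    have h8 : (∑ n ∈ AP a b N, F n) =
        ((∑ n ∈ AP a b N, F n) - SA (s (k + 1)) a b N) + SA (s (k + 1)) a b N := by ring
    rw [h8]
    refine (norm_add_le _ _).trans ?_
    have h9 : (3 / ((k : ℝ) + 1) + (1 / 2 : ℝ) ^ k) * N =
        N * (1 / 2 : ℝ) ^ k + 3 / ((k : ℝ) + 1) * N := by ring
    rw [h9]
    exact add_le_add hdiff hSA
  have hlt : 3 / ((k : ℝ) + 1) + (1 / 2 : ℝ) ^ k < ε := hK0 k ((le_max_left _ _).trans hkK)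
  rw [dist_zero_right, norm_mul, norm_div, norm_one, Complex.norm_natCast, one_div,
    inv_mul_lt_iff₀ hNr]
  calc ‖∑ n ∈ AP a b N, F n‖ ≤ (3 / ((k : ℝ) + 1) + (1 / 2 : ℝ) ^ k) * N := hsum
    _ < ε * N := mul_lt_mul_of_pos_right hlt hNr
    _ = N * ε := mul_comm _ _

end Pool.Agent.W923.MR

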